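import Mathlib
import Pool.Agent.TH773.PSet.Prod

/-!
# Sentences about functions and cardinals in a forcing extension

A sentence of the forcing language of a preordered set `P` of conditions is represented by the
set of the conditions which force it; the connectives `fnot`, `fand`, `fall`, `fimp`, `disj`,
`fex` and the sentence `meets N` (the generic filter meets the set `N` of conditions) are those of
`Pool.Agent.TH773.PSet.Defs`. A name for a subset of a set `X` of the ground model is a map
sending `x : X` to the set of the conditions attached to `x`.
-/

set_option autoImplicit false

namespace Pool.Agent.R593.Rnd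

open Cardinal Pool.Agent.TH773.PSet

universe u v w

section Defs

variable {P : Type u} [Preorder P]

/-- The relation between `X` and `Y` named by `R` is a function from `X` to `Y`: every `x` is
related to some `y`, and no `x` is related to two different elements of `Y`. -/
def IsFun {X : Type v} {Y : Type w} (R : X → Y → Set P) : Set P :=
  fand (fall fun x => fex fun y => meets (R x y))
    (fall fun x => fall fun y => fall fun y' => fall fun _ : y ≠ y' =>
      fnot (fand (meets (R x y)) (meets (R x y'))))

/-- The relation named by `R` is injective: no two different elements of `X` are related to the
same element of `Y`. -/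
def IsInj {X : Type v} {Y : Type w} (R : X → Y → Set P) : Set P :=
  fall fun x => fall fun x' => fall fun _ : x ≠ x' => fall fun y =>
    fnot (fand (meets (R x y)) (meets (R x' y)))

/-- The relation named by `R` is onto `Y`. -/
def IsOnto {X : Type v} {Y : Type w} (R : X → Y → Set P) : Set P :=
  fall fun y => fex fun x => meets (R x y)

/-- There is an injective function from `K` to `K` all of whose values belong to the subset of
`K` named by `A`: this subset has the same cardinality as `K`. -/
def FullSize {K : Type v} (A : K → Set P) : Set P :=
  fex fun R : K → K → Set P =>
    fand (IsFun R) (fand (IsInj R)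
      (fall fun x => fall fun y => fimp (meets (R x y)) (meets (A y))))

variable (P) in
/-- Every uncountable cardinal of the ground model is a cardinal of the extension: for cardinals
`μ < ν` of the ground model, `ν` uncountable, no function from `μ` to `ν` is onto. -/
def CardinalsPreserved : Set P :=
  fall fun μ : Cardinal.{v} => fall fun ν : Cardinal.{v} => fall fun _ : μ < ν =>
    fall fun _ : ℵ₀ < ν =>
      fnot (fex fun R : μ.out → ν.out → Set P => fand (IsFun R) (IsOnto R))

variable (P) in
/-- The strong polarized partition relation for the set `K` and `ω`. A colouring of `K × ω` with
two colours is given by a name `c` for the set of the pairs which have the first colour. The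
sentence says that for every colouring there are a subset `A` of `K` of the same cardinality as
`K` and an infinite subset `B` of `ω` such that all elements of `A × B` have the first colour or
none of them has the first colour. -/
def Polarized (K : Type v) : Set P :=
  fall fun c : K → ℕ → Set P =>
    fex fun A : K → Set P => fex fun B : RName P =>
      fand (FullSize A) (fand (Inf B)
        (disj
          (fall fun k => fall fun n =>
            fimp (fand (meets (A k)) (meets (B n))) (meets (c k n)))
          (fall fun k => fall fun n =>
            fimp (fand (meets (A k)) (meets (B n))) (fnot (meets (c k n))))))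

/-- The function from `ω` to `ω` named by `f` is eventually dominated by the one named by `g`:
`f n ≤ g n` for all but finitely many `n`. -/
def EvLe (f g : ℕ → ℕ → Set P) : Set P :=
  fex fun N : ℕ => fall fun n => fall fun _ : N ≤ n => fall fun a => fall fun b =>
    fall fun _ : b < a => fnot (fand (meets (f n a)) (meets (g n b)))

variable (P) in
/-- There is a dominating family of functions from `ω` to `ω` which is indexed by `Y`. -/
def DominatingLe (Y : Type v) : Set P :=
  fex fun D : Y → ℕ → ℕ → Set P =>
    fand (fall fun y => IsFun (D y))
      (fall fun f : ℕ → ℕ → Set P => fimp (IsFun f) (fex fun y => EvLe f (D y)))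

variable (P) in
/-- The dominating number is `κ`: there is a dominating family indexed by `κ`, and there is none
indexed by a smaller cardinal. -/
def DominatingIs (κ : Cardinal.{v}) : Set P :=
  fand (DominatingLe P κ.out)
    (fall fun μ : Cardinal.{v} => fall fun _ : μ < κ => fnot (DominatingLe P μ.out))

end Defs

/-! ### The corresponding notions in the ground model -/

/-- The strong polarized partition relation for the set `K` and `ω`: for every
`c : K × ω → 2` there are `A ⊆ K` with `|A| = |K|` and an infinite set `B ⊆ ω` such that `c` is
constant on `A × B`. -/
def PolarizedRel (K : Type v) : Prop :=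
  ∀ c : K → ℕ → Bool, ∃ (A : Set K) (B : Set ℕ), #A = #K ∧ B.Infinite ∧
    ∃ i : Bool, ∀ a ∈ A, ∀ n ∈ B, c a n = i

/-- `D` is a dominating family. -/
def IsDominating (D : Set (ℕ → ℕ)) : Prop :=
  ∀ f : ℕ → ℕ, ∃ g ∈ D, ∃ N, ∀ n, N ≤ n → f n ≤ g n

/-- The dominating number `𝔡`. -/
noncomputable def dNum : Cardinal.{0} := sInf {κ | ∃ D : Set (ℕ → ℕ), IsDominating D ∧ #D = κ}

end Pool.Agent.R593.Rnd
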