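import Mathlib
import Pool.Agent.R593.Rnd.Defs

/-!
# Facts about random forcing: ccc, bounding, independence
-/

set_option autoImplicit false
set_option linter.unusedSectionVars false

namespace Pool.Agent.R593.Rnd

open Cardinal MeasureTheory Set Filter Topology Pool.Agent.TH773.PSet

universe u v w

section Gen

variable {P : Type u} [Preorder P]

theorem reg_isFun {X : Type v} {Y : Type w} (R : X → Y → Set P) : Reg (IsFun R) :=
  reg_fand (reg_fall fun _ => reg_fex _)
    (reg_fall fun _ => reg_fall fun _ => reg_fall fun _ => reg_fall fun _ =>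
      reg_fnot (down_fand (reg_meets _).1 (reg_meets _).1))

theorem reg_isInj {X : Type v} {Y : Type w} (R : X → Y → Set P) : Reg (IsInj R) :=
  reg_fall fun _ => reg_fall fun _ => reg_fall fun _ => reg_fall fun _ =>
      reg_fnot (down_fand (reg_meets _).1 (reg_meets _).1)

theorem isFun_total {X : Type v} {Y : Type w} {R : X → Y → Set P} {p : P} (h : p ∈ IsFun R)
    (x : X) : ∃ q ≤ p, ∃ y, q ∈ meets (R x y) := mem_fex.1 (h.1 x) p le_rfl

theorem isFun_unique {X : Type v} {Y : Type w} {R : X → Y → Set P} {p : P} (h : p ∈ IsFun R)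
    {x : X} {y y' : Y} (h1 : p ∈ meets (R x y)) (h2 : p ∈ meets (R x y')) : y = y' := by
  by_contra hne
  exact h.2 x y y' hne p le_rfl ⟨h1, h2⟩

theorem isInj_eq {X : Type v} {Y : Type w} {R : X → Y → Set P} {p : P} (h : p ∈ IsInj R)
    {x x' : X} {y : Y} (h1 : p ∈ meets (R x y)) (h2 : p ∈ meets (R x' y)) : x = x' := by
  by_contra hne
  exact h x x' hne y p le_rfl ⟨h1, h2⟩

end Gen

section Ccc

variable {Ω : Type u} [MeasurableSpace Ω] {μ : Measure Ω} [IsFiniteMeasure μ]

/-- the measure algebra of a finite measure satisfies the countable chain condition -/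
theorem ccc_cond {X : Type v} (f : X → Cond μ) (hX : ¬ Countable X) :
    ∃ x x', x ≠ x' ∧ ∃ s, s ≤ f x ∧ s ≤ f x' := by
  by_contra hcon
  push Not at hcon
  apply hX
  have h1 : Pairwise (fun x x' => AEDisjoint μ (f x).1 (f x').1) := by
    intro x x' hne
    by_contra hne'
    have h2 : μ ((f x).1 ∩ (f x').1) ≠ 0 := hne'
    refine hcon x x' hne (restr (f x) (f x').1 (f x').2.1 h2) (restr_le _ _ _ _) ?_
    rw [le_iff_AE]
    exact restr_mem _ _ _ _
  have h3 := Measure.countable_meas_pos_of_disjoint_iUnion₀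
    (μ := μ) (As := fun x => (f x).1) (fun x => (f x).2.1.nullMeasurableSet) h1
  have h4 : {i | 0 < μ (f i).1} = Set.univ := by
    ext i
    simp only [mem_ofPred_eq, Set.mem_univ, iff_true]
    exact pos_iff_ne_zero.2 (f i).2.2
  rw [h4] at h3
  exact countable_univ_iff.1 h3

theorem ccc_same {X Z : Type v} (h : #Z * ℵ₀ < #X) (f : X → Cond μ)
    (z : X → Z) : ∃ x x', x ≠ x' ∧ z x = z x' ∧ ∃ s, s ≤ f x ∧ s ≤ f x' := by
  have h1 : ∃ c, ¬ Countable {x // z x = c} := by
    by_contra hcon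
    push Not at hcon
    have h2 : #X = Cardinal.sum fun c => #{x // z x = c} := by
      rw [← mk_sigma]
      exact (Equiv.sigmaFiberEquiv z).symm.cardinal_eq
    have h3 : #X ≤ #Z * ℵ₀ := by
      rw [h2]
      refine (Cardinal.sum_le_sum _ (fun _ => ℵ₀) fun c => ?_).trans ?_
      · have := hcon c
        exact mk_le_aleph0
      · rw [Cardinal.sum_const']
    exact absurd h3 (not_le.2 h)
  obtain ⟨c, hc⟩ := h1
  obtain ⟨y, y', hne, hcomp⟩ := ccc_cond (fun x : {x // z x = c} => f x.1) hc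
  exact ⟨y.1, y'.1, fun h => hne (Subtype.ext h), y.2.trans y'.2.symm, hcomp⟩

theorem cardinalsPreserved (p : Cond μ) : p ∈ CardinalsPreserved.{u, v} (Cond μ) := by
  intro κ ν hμν hν q _ hq
  obtain ⟨r, _, R, hR1, hR2⟩ := mem_fex.1 hq q le_rfl
  have h1 : ∀ y : ν.out, ∃ s ≤ r, ∃ x : κ.out, s ∈ meets (R x y) := fun y =>
    mem_fex.1 (hR2 y) r le_rfl
  choose f hf x hx using h1
  obtain ⟨y, y', hne, hz, s, hs1, hs2⟩ := ccc_same (X := ν.out) (Z := κ.out) (by
    rw [mk_out, mk_out]
    exact mul_lt_of_lt hν.le hμν hν) f x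
  apply hne
  refine isFun_unique ((reg_isFun R).1 r hR1 s (hs1.trans (hf y)))
    ((reg_meets _).1 _ (hx y) s hs1) ?_
  rw [hz]
  exact (reg_meets _).1 _ (hx y') s hs2

/-- A subset of full size of an uncountable set is not included in a countable set of the ground
model. -/
theorem exists_notMem_of_fullSize {K : Type v} (hK : ℵ₀ < #K) {A : K → Set (Cond μ)}
    {p : Cond μ} (hp : p ∈ FullSize A) {C : Set K} (hC : C.Countable) :
    ∃ k, k ∉ C ∧ ∃ q ≤ p, q ∈ meets (A k) := by
  by_contra hcon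
  push Not at hcon
  obtain ⟨r, hr, R, hR1, hR2, hR3⟩ := mem_fex.1 hp p le_rfl
  have h1 : ∀ x : K, ∃ s ≤ r, ∃ y : C, s ∈ meets (R x y) := by
    intro x
    obtain ⟨s, hs, y, hy⟩ := isFun_total hR1 x
    obtain ⟨t, ht, ht'⟩ := mem_fimp.1 (hR3 x y) s hs hy
    by_cases hyC : y ∈ C
    · exact ⟨s, hs, ⟨y, hyC⟩, hy⟩
    · exact absurd ht' (hcon y hyC t (ht.trans (hs.trans hr)))
  choose f hf y hy using h1
  have hCc : #C ≤ ℵ₀ := hC.le_aleph0
  obtain ⟨x, x', hne, hz, s, hs1, hs2⟩ := ccc_same (X := K) (Z := C) (by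
    refine lt_of_le_of_lt (mul_le_mul' hCc le_rfl) ?_
    rwa [aleph0_mul_aleph0]) f y
  apply hne
  refine isInj_eq ((reg_isInj R).1 r hR2 s (hs1.trans (hf x)))
    ((reg_meets _).1 _ (hy x) s hs1) ?_
  rw [hz]
  exact (reg_meets _).1 _ (hy x') s hs2

end Ccc

section Bound

variable {Ω : Type u} [MeasurableSpace Ω] {μ : Measure Ω} [IsFiniteMeasure μ]

/-- Measurable representation of a named function from `ω` to `ω`. -/
theorem exists_rep_fun (f : ℕ → ℕ → Set (Cond μ)) :
    ∃ F : ℕ → ℕ → Set Ω, (∀ n a, MeasurableSet (F n a)) ∧ ∀ n a, meets (f n a) = AE μ (F n a) := by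
  choose X hX hX' using fun n => exists_rep (f n)
  exact ⟨X, hX, hX'⟩

theorem isFun_ae {f : ℕ → ℕ → Set (Cond μ)} {F : ℕ → ℕ → Set Ω}
    (hF : ∀ n a, MeasurableSet (F n a)) (hf : ∀ n a, meets (f n a) = AE μ (F n a)) {p : Cond μ} :
    p ∈ IsFun f ↔ ∀ᵐ x ∂μ, x ∈ p.1 → ∀ n, ∃! a, x ∈ F n a := by
  have h1 : ∀ n, fex (fun a => meets (f n a)) = AE μ (⋃ a, F n a) := by
    intro n
    simp only [hf]
    exact fex_AE fun a => hF n a
  have h2 : ∀ n a b, fnot (fand (meets (f n a)) (meets (f n b))) = AE μ (F n a ∩ F n b)ᶜ := by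
    intro n a b
    rw [hf, hf, fand_AE, fnot_AE ((hF n a).inter (hF n b))]
  have h3 : IsFun f = AE μ {x | ∀ n, ∃! a, x ∈ F n a} := by
    unfold IsFun
    simp only [h1, h2, fall_AE, fand_AE]
    congr 1
    ext x
    simp only [mem_inter_iff, mem_iInter, mem_iUnion, mem_compl_iff, mem_ofPred_eq, not_and]
    constructor
    · rintro ⟨h4, h5⟩ n
      obtain ⟨a, ha⟩ := h4 n
      refine ⟨a, ha, fun b hb => ?_⟩
      by_contra hne
      exact h5 n b a hne hb ha
    · intro h4
      refine ⟨fun n => (h4 n).exists, fun n a b hne ha hb => hne ((h4 n).unique ha hb)⟩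
  rw [h3, mem_AE_iff]
  rfl

/-- Random forcing is bounding. -/
theorem exists_bound {F : ℕ → ℕ → Set Ω} (hF : ∀ n a, MeasurableSet (F n a)) {p : Cond μ}
    (h : ∀ᵐ x ∂μ, x ∈ p.1 → ∀ n, ∃! a, x ∈ F n a) :
    ∃ g : ℕ → ℕ, ∀ᵐ x ∂μ, x ∈ p.1 → ∀ᶠ n in atTop, ∀ a, x ∈ F n a → a ≤ g n := by
  have h1 : ∀ n : ℕ, ∃ k : ℕ, μ (p.1 ∩ (⋃ a ∈ Iic k, F n a)ᶜ) ≤ (2 : ENNReal)⁻¹ ^ n := by
    intro n
    have h2 : Tendsto (μ ∘ fun k : ℕ => p.1 ∩ (⋃ a ∈ Iic k, F n a)ᶜ) atTop
        (𝓝 (μ (⋂ k : ℕ, p.1 ∩ (⋃ a ∈ Iic k, F n a)ᶜ))) := by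
      refine tendsto_measure_iInter_atTop (fun k => ?_) ?_ ⟨0, measure_ne_top _ _⟩
      · exact (p.2.1.inter (MeasurableSet.iUnion fun a => MeasurableSet.iUnion fun _ =>
          hF n a).compl).nullMeasurableSet
      · intro k k' hkk'
        refine inter_subset_inter_right _ (compl_subset_compl.2 ?_)
        exact biUnion_subset_biUnion_left (Iic_subset_Iic.2 hkk')
    have h3 : μ (⋂ k : ℕ, p.1 ∩ (⋃ a ∈ Iic k, F n a)ᶜ) = 0 := by
      refine measure_eq_zero_iff_ae_notMem.2 ?_
      filter_upwards [h] with x hx hx'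
      rw [mem_iInter] at hx'
      obtain ⟨a, ha, -⟩ := hx (hx' 0).1 n
      exact (hx' a).2 (mem_iUnion₂.2 ⟨a, mem_Iic.2 le_rfl, ha⟩)
    rw [h3] at h2
    obtain ⟨k, hk⟩ := eventually_atTop.1 (h2.eventually (ge_mem_nhds (two_pos n)))
    exact ⟨k, hk k le_rfl⟩
  choose g hg using h1
  refine ⟨g, ?_⟩
  have h4 : ∑' n, μ (p.1 ∩ (⋃ a ∈ Iic (g n), F n a)ᶜ) ≠ ⊤ :=
    ne_top_of_le_ne_top tsum_two (ENNReal.tsum_le_tsum hg)
  filter_upwards [ae_eventually_notMem h4, h] with x hx hx' hxp
  filter_upwards [hx] with n hn a ha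
  by_contra hcon
  apply hn
  refine ⟨hxp, fun hmem => ?_⟩
  obtain ⟨b, hb, hb'⟩ := mem_iUnion₂.1 hmem
  rw [(hx' hxp n).unique ha hb'] at hcon
  exact hcon hb

end Bound

section Indep

variable {I : Type}

/-- the first `m` elements of the random set `b` are the elements of `S` -/
theorem null_const {b : ℕ → Set (I × ℕ → Bool)} {T : Set (I × ℕ)} (hb : ∀ n, Dep T (b n))
    {i : I} (hi : ∀ t ∈ T, t.1 ≠ i) (v : Bool) :
    coinProduct I {x | (∀ N, ∃ n, N ≤ n ∧ x ∈ b n) ∧ ∀ n, x ∈ b n → x (i, n) = v} = 0 := by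
  classical
  have key : ∀ m : ℕ, coinProduct I {x | (∀ N, ∃ n, N ≤ n ∧ x ∈ b n) ∧
      ∀ n, x ∈ b n → x (i, n) = v} ≤ (2 : ENNReal)⁻¹ ^ m := by
    intro m0
    obtain ⟨m, hm⟩ : ∃ m, m = m0 + 1 := ⟨_, rfl⟩
    refine le_trans ?_ (pow_le_pow_right_of_le_one' (ENNReal.inv_le_one.2 (by norm_num))
      (show m0 ≤ m by omega))
    let 𝓢 : Type := {S : Finset ℕ // S.card = m}
    let F : 𝓢 → Set (I × ℕ → Bool) := fun S => {x | ∀ n, n ≤ S.1.sup id → (x ∈ b n ↔ n ∈ S.1)}
    let G : 𝓢 → Set (I × ℕ → Bool) := fun S => {x | ∀ n ∈ S.1, x (i, n) = v}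
    have hFd : ∀ S, Dep T (F S) := by
      intro S
      have : F S = ⋂ n : ℕ, ⋂ (_ : n ≤ S.1.sup id), (if n ∈ S.1 then b n else (b n)ᶜ) := by
        ext x
        simp only [F, mem_ofPred_eq, mem_iInter]
        refine forall_congr' fun n => forall_congr' fun _ => ?_
        by_cases hn : n ∈ S.1 <;> simp [hn]
      rw [this]
      refine Dep.iInter fun n => Dep.iInter fun _ => ?_
      split_ifs
      · exact hb n
      · exact (hb n).compl
    have hGd : ∀ S, Dep {t : I × ℕ | t.1 = i} (G S) := by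
      intro S
      have : G S = ⋂ n : ℕ, ⋂ (_ : n ∈ S.1), {x : I × ℕ → Bool | x (i, n) = v} := by
        ext x
        simp [G]
      rw [this]
      refine Dep.iInter fun n => Dep.iInter fun _ => ?_
      cases v with
      | true => exact dep_coord rfl
      | false =>
        have h : {x : I × ℕ → Bool | x (i, n) = false} = {x : I × ℕ → Bool | x (i, n) = true}ᶜ := by
          ext x; simp
        rw [h]
        have h' : Dep {t : I × ℕ | t.1 = i} {x : I × ℕ → Bool | x (i, n) = true} := dep_coord rfl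
        exact h'.compl
    have hGm : ∀ S, coinProduct I (G S) = (2 : ENNReal)⁻¹ ^ m := by
      intro S
      let s : Finset (I × ℕ) := S.1.image fun n => (i, n)
      have hs : G S = Set.pi s fun _ => {v} := by
        ext x
        simp only [G, s, Set.mem_pi, mem_ofPred_eq, Finset.coe_image, mem_image,
          Finset.mem_coe, forall_exists_index, and_imp, forall_apply_eq_imp_iff₂,
          mem_singleton_iff]
      have hcard : s.card = m := by
        rw [Finset.card_image_of_injective, S.2]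
        intro a b h
        exact congrArg Prod.snd h
      have hv : coin {v} = (2 : ENNReal)⁻¹ := by
        cases v with
        | true => exact coin_true
        | false =>
          unfold coin
          simp [Measure.smul_apply, Measure.add_apply]
      rw [hs, coinProduct, Measure.infinitePi_pi _ fun _ _ => measurableSet_singleton v,
        Finset.prod_const, hv, hcard]
    have hdisj : Pairwise (fun S S' => Disjoint (F S) (F S')) := by
      have aux : ∀ S S' : 𝓢, S.1.sup id ≤ S'.1.sup id → ∀ x, x ∈ F S → x ∈ F S' → S = S' := by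
        intro S S' hle x hx hx'
        have hsub : S.1 ⊆ S'.1 := by
          intro n hn
          have h1 : n ≤ S.1.sup id := Finset.le_sup (f := id) hn
          exact (hx' n (h1.trans hle)).1 ((hx n h1).2 hn)
        exact Subtype.ext (Finset.eq_of_subset_of_card_le hsub (by rw [S.2, S'.2]))
      intro S S' hne
      refine Set.disjoint_left.2 fun x hx hx' => ?_
      rcases le_total (S.1.sup id) (S'.1.sup id) with h | h
      · exact hne (aux S S' h x hx hx')
      · exact hne (aux S' S h x hx' hx).symm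
    have hcov : {x | (∀ N, ∃ n, N ≤ n ∧ x ∈ b n) ∧ ∀ n, x ∈ b n → x (i, n) = v} ⊆
        ⋃ S : 𝓢, F S ∩ G S := by
      rintro x ⟨hx1, hx2⟩
      have hinf : {n | x ∈ b n}.Infinite := by
        rw [← Nat.frequently_atTop_iff_infinite]
        exact frequently_atTop.2 fun N => hx1 N
      let S : Finset ℕ := (Finset.range m).image (Nat.nth fun n => x ∈ b n)
      have hScard : S.card = m := by
        rw [Finset.card_image_of_injective, Finset.card_range]
        exact (Nat.nth_strictMono hinf).injective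
      refine mem_iUnion.2 ⟨⟨S, hScard⟩, ?_, ?_⟩
      · intro n hn
        constructor
        · intro hxn
          obtain ⟨j, hj⟩ : ∃ j, Nat.nth (fun n => x ∈ b n) j = n :=
            ⟨Nat.count (fun n => x ∈ b n) n, Nat.nth_count hxn⟩
          refine Finset.mem_image.2 ⟨j, ?_, hj⟩
          rw [Finset.mem_range]
          by_contra hjm
          push Not at hjm
          have h2 : S.sup id < n ∨ S = ∅ := by
            rcases S.eq_empty_or_nonempty with h | h
            · exact Or.inr h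
            · left
              obtain ⟨k, hk, hk'⟩ := Finset.exists_mem_eq_sup S h id
              rw [hk']
              obtain ⟨l, hl, hl'⟩ := Finset.mem_image.1 hk
              rw [← hj]
              simp only [id]
              rw [← hl']
              exact Nat.nth_strictMono hinf (lt_of_lt_of_le (Finset.mem_range.1 hl) hjm)
          rcases h2 with h2 | h2
          · exact absurd hn (not_le.2 h2)
          · rw [h2, Finset.card_empty] at hScard
            omega
        · intro hn'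
          obtain ⟨j, _, hj⟩ := Finset.mem_image.1 hn'
          rw [← hj]
          exact Nat.nth_mem_of_infinite hinf j
      · intro n hn
        obtain ⟨j, _, hj⟩ := Finset.mem_image.1 hn
        rw [← hj]
        exact hx2 _ (Nat.nth_mem_of_infinite hinf j)
    have hTi : Disjoint T {t : I × ℕ | t.1 = i} :=
      Set.disjoint_left.2 fun t h1 h2 => hi t h1 h2
    calc coinProduct I _ ≤ coinProduct I (⋃ S : 𝓢, F S ∩ G S) := measure_mono hcov
      _ ≤ ∑' S : 𝓢, coinProduct I (F S ∩ G S) := measure_iUnion_le _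
      _ = ∑' S : 𝓢, coinProduct I (F S) * (2 : ENNReal)⁻¹ ^ m := by
        refine tsum_congr fun S => ?_
        rw [dep_indep hTi (hFd S) (hGd S), hGm]
      _ = (∑' S : 𝓢, coinProduct I (F S)) * (2 : ENNReal)⁻¹ ^ m := ENNReal.tsum_mul_right
      _ = coinProduct I (⋃ S : 𝓢, F S) * (2 : ENNReal)⁻¹ ^ m := by
        rw [measure_iUnion hdisj fun S => (hFd S).meas]
      _ ≤ 1 * (2 : ENNReal)⁻¹ ^ m := mul_le_mul' prob_le_one le_rfl
      _ = _ := one_mul _
  refine le_antisymm (ge_of_tendsto' (ENNReal.tendsto_pow_atTop_nhds_zero_of_lt_one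
    (r := (2 : ENNReal)⁻¹) (ENNReal.inv_lt_one.2 (by norm_num))) key) bot_le

end Indep

end Pool.Agent.R593.Rnd
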