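import Mathlib
import Pool.Agent.R593.Rnd.Basic

/-!
# Random reals destroy the polarized relation
-/

set_option autoImplicit false
set_option linter.unusedSectionVars false

namespace Pool.Agent.R593.Rnd

open Cardinal MeasureTheory Set Filter Topology Pool.Agent.TH773.PSet

universe u v w

theorem not_polarized {I K : Type} (hK : ℵ₀ < #K) (hKI : #K ≤ #I) (p : Random I) :
    p ∈ fnot (Polarized (Random I) K) := by
  obtain ⟨e⟩ := (Cardinal.le_def _ _).1 hKI
  intro q0 _ hq0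
  let c : K → ℕ → Set (Random I) := fun k n => AE (coinProduct I) {x | x (e k, n) = true}
  have hcm0 : ∀ k n (v : Bool), MeasurableSet {x : I × ℕ → Bool | x (e k, n) = v} :=
    fun k n v => measurableSet_eq_fun (measurable_pi_apply (e k, n)) measurable_const
  have hcm : ∀ k n, MeasurableSet {x : I × ℕ → Bool | x (e k, n) = true} :=
    fun k n => hcm0 k n true
  obtain ⟨q1, _, A, hq1⟩ := mem_fex.1 (hq0 c) q0 le_rfl
  obtain ⟨q, _, B, hA, hB, hdisj⟩ := mem_fex.1 hq1 q1 le_rfl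
  -- representation of `B`
  obtain ⟨X, hX, hBX⟩ := exists_rep B
  choose T hT hT' using fun n => exists_countable (hX n)
  have hTc : (⋃ n, T n).Countable := countable_iUnion hT
  have hdep : ∀ n, Dep (⋃ n, T n) (X n) := fun n => (hT' n).mono (subset_iUnion T n)
  have hinf : ∀ r ≤ q, ∀ᵐ x ∂(coinProduct I), x ∈ r.1 → ∀ N, ∃ n, N ≤ n ∧ x ∈ X n := by
    intro r hr
    have h1 : r ∈ Inf (hat (coinProduct I) X) := by
      have h2 : Inf B = Inf (hat (coinProduct I) X) := by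
        unfold Inf
        simp only [hBX, meets_hat hX]
      rw [← h2]
      exact (reg_inf _).1 _ hB _ hr
    rw [inf_hat hX, mem_AE_iff] at h1
    exact h1
  let C : Set K := e ⁻¹' (Prod.fst '' ⋃ n, T n)
  have hC : C.Countable := (hTc.image _).preimage e.injective
  -- the two cases
  obtain ⟨r, hr, hr'⟩ := mem_disj.1 hdisj q le_rfl
  obtain ⟨v, hv⟩ : ∃ v : Bool, ∀ k n, r ∈ fimp (fand (meets (A k)) (meets (B n)))
      (AE (coinProduct I) {x | x (e k, n) = v}) := by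
    rcases hr' with hr' | hr'
    · refine ⟨true, fun k n => ?_⟩
      have h1 := hr' k n
      have h2 : meets (c k n) = AE (coinProduct I) {x | x (e k, n) = true} := meets_AE (hcm k n)
      beta_reduce at h1
      rwa [h2] at h1
    · refine ⟨false, fun k n => ?_⟩
      have h1 := hr' k n
      have h2 : fnot (meets (c k n)) = AE (coinProduct I) {x | x (e k, n) = false} := by
        have h3 : meets (c k n) = AE (coinProduct I) {x | x (e k, n) = true} := meets_AE (hcm k n)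
        rw [h3, fnot_AE (hcm k n)]
        congr 1
        ext x
        simp
      beta_reduce at h1
      rwa [h2] at h1
  obtain ⟨k, hkC, s, hs, hsA⟩ :=
    exists_notMem_of_fullSize hK ((reg_fex _).1 _ hA _ hr : r ∈ FullSize A) hC
  have hki : ∀ t ∈ ⋃ n, T n, t.1 ≠ e k := by
    intro t ht h
    exact hkC ⟨t, ht, h⟩
  have hvm : ∀ n, MeasurableSet {x : I × ℕ → Bool | x (e k, n) = v} := fun n => hcm0 k n v
  have hreg : ∀ n, Reg (AE (coinProduct I) {x : I × ℕ → Bool | x (e k, n) = v}) :=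
    fun n => reg_AE (hvm n)
  have h1 : ∀ n, ∀ᵐ x ∂(coinProduct I), x ∈ s.1 → x ∈ X n → x (e k, n) = v := by
    intro n
    by_contra hcon
    have hE : MeasurableSet (X n ∩ {x | x (e k, n) = v}ᶜ) := (hX n).inter (hvm n).compl
    have hpos : coinProduct I (s.1 ∩ (X n ∩ {x | x (e k, n) = v}ᶜ)) ≠ 0 := by
      intro h0
      apply hcon
      rw [measure_eq_zero_iff_ae_notMem] at h0
      filter_upwards [h0] with x hx h2 h3
      by_contra h4
      exact hx ⟨h2, h3, h4⟩
    let t : Random I := restr s _ hE hpos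
    have ht : t ≤ s := restr_le _ _ _ _
    have htE : t ∈ AE (coinProduct I) (X n ∩ {x | x (e k, n) = v}ᶜ) := restr_mem _ _ _ _
    rw [← fand_AE] at htE
    obtain ⟨t', ht', h5⟩ := mem_fimp.1 (hv k n) t (ht.trans hs) ⟨(reg_meets _).1 _ hsA _ ht, by
      rw [hBX]; exact htE.1⟩
    exact not_AE_compl h5 (down_AE _ _ htE.2 _ ht')
  refine s.2.2 (measure_mono_null (t := {x | (∀ N, ∃ n, N ≤ n ∧ x ∈ X n) ∧
    ∀ n, x ∈ X n → x (e k, n) = v} ∪ (s.1 ∩ {x | (∀ N, ∃ n, N ≤ n ∧ x ∈ X n) ∧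
    ∀ n, x ∈ X n → x (e k, n) = v}ᶜ)) ?_ ?_)
  · intro x hx
    by_cases h : x ∈ {x | (∀ N, ∃ n, N ≤ n ∧ x ∈ X n) ∧ ∀ n, x ∈ X n → x (e k, n) = v}
    · exact Or.inl h
    · exact Or.inr ⟨hx, h⟩
  · refine measure_union_null (null_const hdep hki v) ?_
    refine measure_eq_zero_iff_ae_notMem.2 ?_
    filter_upwards [ae_all_iff.2 h1, hinf s (hs.trans hr)] with x h2 h3 ⟨h4, h5⟩
    exact h5 ⟨h3 h4, fun n hn => h2 n h4 hn⟩

/-! ### The dominating number -/

theorem dNum_spec : ∃ D : Set (ℕ → ℕ), IsDominating D ∧ #D = dNum := by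
  have h : {κ : Cardinal.{0} | ∃ D : Set (ℕ → ℕ), IsDominating D ∧ #D = κ}.Nonempty :=
    ⟨_, Set.univ, fun f => ⟨f, mem_univ _, 0, fun _ _ => le_rfl⟩, rfl⟩
  exact csInf_mem h

theorem dNum_le {D : Set (ℕ → ℕ)} (hD : IsDominating D) : dNum ≤ #D := csInf_le' ⟨D, hD, rfl⟩

/-- the name of a function of the ground model -/
def check {P : Type u} [Preorder P] (g : ℕ → ℕ) : ℕ → ℕ → Set P := fun n a => {_p | g n = a}

theorem mem_meets_check {P : Type u} [Preorder P] {g : ℕ → ℕ} {n a : ℕ} {p : P} :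
    p ∈ meets (check g n a) ↔ g n = a := by
  constructor
  · intro h
    obtain ⟨r, _, s, hs, _⟩ := h p le_rfl
    exact hs
  · intro h q hq
    exact ⟨q, le_rfl, q, h, le_rfl⟩

theorem check_isFun {P : Type u} [Preorder P] (g : ℕ → ℕ) (p : P) : p ∈ IsFun (check g) := by
  refine ⟨fun n => mem_fex_of (g n) fun q _ => mem_meets_check.2 rfl, ?_⟩
  intro n a b hne q _ hq
  exact hne ((mem_meets_check.1 hq.1).symm.trans (mem_meets_check.1 hq.2))

theorem dominatingIs {I : Type} (p : Random I) : p ∈ DominatingIs.{0, 0} (Random I) dNum := by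
  obtain ⟨D, hD, hDc⟩ := dNum_spec
  constructor
  · -- the ground model family is dominating
    have hcard : #(dNum.out) = #D := by rw [mk_out, hDc]
    obtain ⟨φ⟩ := Cardinal.eq.1 hcard
    refine mem_fex_of (fun y => check (φ y).1) fun q _ => ⟨fun y => check_isFun _ _, ?_⟩
    intro f
    rw [mem_fimp_reg (reg_isFun f).1 (reg_fex _)]
    intro r _ hr
    obtain ⟨F, hF, hfF⟩ := exists_rep_fun f
    have h1 := (isFun_ae hF hfF).1 hr
    obtain ⟨g, hg⟩ := exists_bound hF h1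
    obtain ⟨g', hg', N, hN⟩ := hD g
    refine mem_fex_of (φ.symm ⟨g', hg'⟩) fun s hs => ?_
    have h0 : (φ (φ.symm ⟨g', hg'⟩)).1 = g' := by rw [Equiv.apply_symm_apply]
    show s ∈ EvLe f (check (φ (φ.symm ⟨g', hg'⟩)).1)
    rw [h0]
    -- densely below `s`, some `N'` works
    refine mem_fex.2 fun t ht => ?_
    have h2 : t ∈ AE (coinProduct I) (⋃ N', ⋂ n, ⋂ (_ : N' ≤ n), ⋂ a, ⋂ (_ : g n < a), (F n a)ᶜ) := by
      rw [mem_AE_iff]
      have h3 : ∀ᵐ x ∂(coinProduct I), x ∈ t.1 → x ∈ r.1 := mem_AE_iff.1 (ht.trans hs)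
      filter_upwards [hg, h3] with x h4 h5 h6
      obtain ⟨N', hN'⟩ := eventually_atTop.1 (h4 (h5 h6))
      simp only [mem_iUnion, mem_iInter, mem_compl_iff]
      exact ⟨N', fun n hn a ha hx => absurd (hN' n hn a hx) (not_le.2 ha)⟩
    obtain ⟨N', hN'⟩ := exists_pos h2
    have hm : MeasurableSet (⋂ n, ⋂ (_ : N' ≤ n), ⋂ a, ⋂ (_ : g n < a), (F n a)ᶜ) :=
      MeasurableSet.iInter fun n => MeasurableSet.iInter fun _ => MeasurableSet.iInter fun a =>
        MeasurableSet.iInter fun _ => (hF n a).compl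
    refine ⟨restr t _ hm hN', restr_le _ _ _ _, max N N', ?_⟩
    intro n hn a b hba u hu hu'
    have h3 : b = g' n := (mem_meets_check.1 hu'.2).symm
    have h4 : u ∈ AE (coinProduct I) (F n a) := by rw [← hfF]; exact hu'.1
    have h5 : u ∈ AE (coinProduct I) (F n a)ᶜ := by
      have h6 := down_AE _ _ (restr_mem t _ hm hN') _ hu
      rw [mem_AE_iff] at h6 ⊢
      filter_upwards [h6] with x h7 h8
      have h9 := h7 h8
      simp only [mem_iInter] at h9
      refine h9 n ((le_max_right _ _).trans hn) a ?_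
      have := hN n ((le_max_left _ _).trans hn)
      omega
    exact not_AE_compl h4 h5
  · -- no smaller family is dominating
    intro μ hμ q _ hq
    obtain ⟨r, _, E, hE1, hE2⟩ := mem_fex.1 hq q le_rfl
    choose F hF hfF using fun y => exists_rep_fun (E y)
    have h1 : ∀ y, ∃ g : ℕ → ℕ, ∀ᵐ x ∂(coinProduct I), x ∈ r.1 →
        ∀ᶠ n in atTop, ∀ a, x ∈ F y n a → a ≤ g n := fun y =>
      exists_bound (hF y) ((isFun_ae (hF y) (hfF y)).1 (hE1 y))
    choose g hg using h1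
    have h2 : ¬ IsDominating (range g) := by
      intro h
      have h3 := dNum_le h
      have h4 : #(range g) ≤ μ := by
        have := mk_range_le (f := g)
        rwa [mk_out] at this
      exact absurd (h3.trans h4) (not_le.2 hμ)
    unfold IsDominating at h2
    push Not at h2
    obtain ⟨h, hh⟩ := h2
    obtain ⟨s, hs, y, hsy⟩ : ∃ s ≤ r, ∃ y, s ∈ EvLe (check h) (E y) := by
      obtain ⟨s, hs, hs'⟩ := mem_fimp.1 (hE2 (check h)) r le_rfl (check_isFun h r)
      obtain ⟨t, ht, y, hy⟩ := mem_fex.1 hs' s le_rfl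
      exact ⟨t, ht.trans hs, y, hy⟩
    obtain ⟨t, ht, N, hN⟩ := mem_fex.1 hsy s le_rfl
    have h3 : ∀ᵐ x ∂(coinProduct I), x ∈ t.1 → ∀ n, N ≤ n → ∀ b, x ∈ F y n b → h n ≤ b := by
      refine mem_AE_iff.1 (?_ : t ∈ AE (coinProduct I)
        {x | ∀ n, N ≤ n → ∀ b, x ∈ F y n b → h n ≤ b})
      have : {x | ∀ n, N ≤ n → ∀ b, x ∈ F y n b → h n ≤ b} =
          ⋂ n, ⋂ (_ : N ≤ n), ⋂ b, ⋂ (_ : b < h n), (F y n b)ᶜ := by
        ext x
        simp only [mem_ofPred_eq, mem_iInter, mem_compl_iff]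
        refine forall_congr' fun n => forall_congr' fun _ => forall_congr' fun b => ?_
        constructor
        · intro h4 h5 h6
          exact absurd (h4 h6) (not_le.2 h5)
        · intro h4 h5
          by_contra h6
          exact h4 (not_le.1 h6) h5
      rw [this]
      simp only [← fall_AE, ← fnot_AE (hF y _ _)]
      intro n hn b hb u hu hu'
      refine hN n hn (h n) b hb u hu ⟨mem_meets_check.2 rfl, ?_⟩
      rw [hfF]
      exact hu'
    have h4 := (isFun_ae (hF y) (hfF y)).1 (hE1 y)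
    have h5 : ∀ᵐ x ∂(coinProduct I), x ∈ t.1 → x ∈ r.1 := mem_AE_iff.1 (ht.trans hs)
    refine t.2.2 (measure_eq_zero_iff_ae_notMem.2 ?_)
    filter_upwards [h3, h4, h5, hg y] with x h6 h7 h8 h9 h10
    obtain ⟨M, hM⟩ := eventually_atTop.1 (h9 (h8 h10))
    obtain ⟨n, hn, hn'⟩ := hh (g y) (mem_range_self y) (max N M)
    obtain ⟨b, hb, _⟩ := h7 (h8 h10) n
    have h11 := h6 h10 n ((le_max_left _ _).trans hn) b hb
    have h12 := hM n ((le_max_right _ _).trans hn) b hb
    omega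

/-! ### The trivial forcing -/

theorem unit_meets {N : Set Unit} {p : Unit} : p ∈ meets N ↔ () ∈ N := by
  constructor
  · intro h
    obtain ⟨_, _, s, hs, _⟩ := h () le_rfl
    exact hs
  · intro h q _
    exact ⟨q, le_rfl, (), h, le_rfl⟩

theorem unit_fnot {φ : Set Unit} {p : Unit} : p ∈ fnot φ ↔ ¬ () ∈ φ :=
  ⟨fun h => h () le_rfl, fun h _ _ => h⟩

theorem unit_fimp {φ ψ : Set Unit} {p : Unit} : p ∈ fimp φ ψ ↔ (() ∈ φ → () ∈ ψ) := by
  rw [mem_fimp]
  exact ⟨fun h h' => (h () le_rfl h').elim fun _ h => h.2, fun h _ _ h' => ⟨(), le_rfl, h h'⟩⟩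

theorem unit_fex {ι : Sort v} {φ : ι → Set Unit} {p : Unit} : p ∈ fex φ ↔ ∃ i, () ∈ φ i := by
  rw [mem_fex]
  constructor
  · intro h
    obtain ⟨_, _, i, hi⟩ := h () le_rfl
    exact ⟨i, hi⟩
  · rintro ⟨i, hi⟩ _ _
    exact ⟨(), le_rfl, i, hi⟩

theorem unit_disj {φ ψ : Set Unit} {p : Unit} : p ∈ disj φ ψ ↔ (() ∈ φ ∨ () ∈ ψ) := by
  rw [mem_disj]
  constructor
  · intro h
    obtain ⟨_, _, h'⟩ := h () le_rfl
    exact h'
  · intro h _ _
    exact ⟨(), le_rfl, h⟩

theorem unit_isFun {X : Type v} {Y : Type w} {R : X → Y → Set Unit} {p : Unit} :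
    p ∈ IsFun R ↔ ∃ f : X → Y, ∀ x y, () ∈ R x y ↔ f x = y := by
  simp only [IsFun, mem_fand, mem_fall, unit_fex, unit_fnot, unit_meets]
  constructor
  · rintro ⟨h1, h2⟩
    choose f hf using h1
    refine ⟨f, fun x y => ⟨fun h => ?_, fun h => h ▸ hf x⟩⟩
    by_contra hne
    exact h2 x (f x) y hne ⟨hf x, h⟩
  · rintro ⟨f, hf⟩
    exact ⟨fun x => ⟨f x, (hf x _).2 rfl⟩, fun x y y' hne h =>
      hne (((hf x y).1 h.1).symm.trans ((hf x y').1 h.2))⟩

theorem unit_fullSize {K : Type v} {A : K → Set Unit} {p : Unit} :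
    p ∈ FullSize A ↔ #{k // () ∈ A k} = #K := by
  simp only [FullSize, unit_fex, mem_fand, unit_isFun, IsInj, mem_fall, unit_fnot, unit_meets,
    unit_fimp]
  constructor
  · rintro ⟨R, ⟨f, hf⟩, h2, h3⟩
    refine le_antisymm (mk_subtype_le _) ?_
    refine mk_le_of_injective (f := fun k => (⟨f k, h3 k (f k) ((hf k _).2 rfl)⟩ :
      {k // () ∈ A k})) ?_
    intro k k' h
    by_contra hne
    have h' : f k = f k' := congrArg Subtype.val h
    exact h2 k k' hne (f k) ⟨(hf k _).2 rfl, (hf k' _).2 h'.symm⟩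
  · intro h
    obtain ⟨φ⟩ := Cardinal.eq.1 h
    refine ⟨fun k k' => {_p | (φ.symm k).1 = k'}, ⟨fun k => (φ.symm k).1, fun k k' => Iff.rfl⟩,
      ?_, ?_⟩
    · rintro k k' hne y ⟨h1, h2⟩
      have h1' : (φ.symm k).1 = y := h1
      have h2' : (φ.symm k').1 = y := h2
      exact hne (φ.symm.injective (Subtype.ext (h1'.trans h2'.symm)))
    · intro k k' h1
      have h1' : (φ.symm k).1 = k' := h1
      rw [← h1']
      exact (φ.symm k).2

theorem unit_inf {B : RName Unit} {p : Unit} : p ∈ Inf B ↔ {n | () ∈ B n}.Infinite := by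
  simp only [Inf, mem_fall, unit_fex, unit_meets]
  rw [← Nat.frequently_atTop_iff_infinite, frequently_atTop]
  refine forall_congr' fun N => exists_congr fun n => ?_
  exact ⟨fun ⟨h, h'⟩ => ⟨h, h'⟩, fun ⟨h, h'⟩ => ⟨h, h'⟩⟩

/-- Over the trivial forcing the sentence `Polarized` is the polarized partition relation. -/
theorem unit_polarized {K : Type v} {p : Unit} :
    p ∈ Polarized Unit K ↔ PolarizedRel K := by
  simp only [Polarized, mem_fall, unit_fex, mem_fand, unit_fullSize, unit_inf, unit_disj,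
    unit_fimp, unit_fnot, unit_meets]
  constructor
  · intro h c
    obtain ⟨A, B, hA, hB, hAB⟩ := h fun k n => {_p | c k n = true}
    refine ⟨{k | () ∈ A k}, {n | () ∈ B n}, hA, hB, ?_⟩
    rcases hAB with hAB | hAB
    · exact ⟨true, fun k hk n hn => hAB k n ⟨hk, hn⟩⟩
    · refine ⟨false, fun k hk n hn => ?_⟩
      have h1 : ¬ (c k n = true) := hAB k n ⟨hk, hn⟩
      simpa using h1
  · intro h c
    classical
    obtain ⟨A, B, hA, hB, i, hAB⟩ := h fun k n => decide (() ∈ c k n)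
    refine ⟨fun k => {_p | k ∈ A}, fun n => {_p | n ∈ B}, hA, hB, ?_⟩
    cases i with
    | true => exact Or.inl fun k n hkn => of_decide_eq_true (hAB k hkn.1 n hkn.2)
    | false => exact Or.inr fun k n hkn => of_decide_eq_false (hAB k hkn.1 n hkn.2)

theorem unit_evLe {f g : ℕ → ℕ → Set Unit} {f' g' : ℕ → ℕ} {p : Unit}
    (hf : ∀ n a, () ∈ f n a ↔ f' n = a) (hg : ∀ n a, () ∈ g n a ↔ g' n = a) :
    p ∈ EvLe f g ↔ ∃ N, ∀ n, N ≤ n → f' n ≤ g' n := by
  simp only [EvLe, mem_fall, unit_fex, mem_fand, unit_fnot, unit_meets, hf, hg]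
  refine exists_congr fun N => forall_congr' fun n => forall_congr' fun _ => ?_
  constructor
  · intro h
    by_contra hlt
    exact h _ _ (not_le.1 hlt) ⟨rfl, rfl⟩
  · rintro h a b hba ⟨h1, h2⟩
    omega

theorem unit_dominatingLe {Y : Type v} {p : Unit} :
    p ∈ DominatingLe Unit Y ↔ ∃ D : Y → ℕ → ℕ, IsDominating (range D) := by
  simp only [DominatingLe, unit_fex, mem_fand, mem_fall, unit_isFun, unit_fimp]
  constructor
  · rintro ⟨D, hD, h⟩
    choose D' hD' using hD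
    refine ⟨D', fun f => ?_⟩
    obtain ⟨y, hy⟩ := h (fun n a => {_p | f n = a}) ⟨f, fun _ _ => Iff.rfl⟩
    obtain ⟨N, hN⟩ := (unit_evLe (f' := f) (g' := D' y) (fun _ _ => Iff.rfl) (hD' y)).1 hy
    exact ⟨D' y, mem_range_self y, N, hN⟩
  · rintro ⟨D, hD⟩
    refine ⟨fun y n a => {_p | D y n = a}, fun y => ⟨D y, fun _ _ => Iff.rfl⟩, ?_⟩
    rintro f ⟨f', hf'⟩
    obtain ⟨_, ⟨y, rfl⟩, N, hN⟩ := hD f'
    exact ⟨y, (unit_evLe (f' := f') (g' := D y) hf' (fun _ _ => Iff.rfl)).2 ⟨N, hN⟩⟩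

/-- Over the trivial forcing the sentence `DominatingIs` says that `𝔡 = κ`. -/
theorem unit_dominatingIs {κ : Cardinal.{0}} {p : Unit} :
    p ∈ DominatingIs Unit κ ↔ dNum = κ := by
  have key : ∀ μ : Cardinal.{0}, (∃ D : μ.out → ℕ → ℕ, IsDominating (range D)) ↔ dNum ≤ μ := by
    intro μ
    constructor
    · rintro ⟨D, hD⟩
      refine (dNum_le hD).trans ?_
      have := mk_range_le (f := D)
      rwa [mk_out] at this
    · intro h
      obtain ⟨D, hD, hDc⟩ := dNum_spec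
      have hne : Nonempty D := by
        obtain ⟨g, hg, _⟩ := hD fun _ => 0
        exact ⟨⟨g, hg⟩⟩
      have h1 : #D ≤ #μ.out := by rw [mk_out, hDc]; exact h
      obtain ⟨e⟩ := (Cardinal.le_def _ _).1 h1
      refine ⟨fun y => (Function.invFun e y).1, fun f => ?_⟩
      obtain ⟨g, hg, hfg⟩ := hD f
      refine ⟨g, ⟨e ⟨g, hg⟩, ?_⟩, hfg⟩
      show (Function.invFun e (e ⟨g, hg⟩)).1 = g
      rw [Function.leftInverse_invFun e.injective]
  simp only [DominatingIs, mem_fand, mem_fall, unit_fnot, unit_dominatingLe, key]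
  constructor
  · rintro ⟨h1, h2⟩
    refine le_antisymm h1 ?_
    by_contra hlt
    exact h2 _ (not_le.1 hlt) le_rfl
  · rintro rfl
    exact ⟨le_rfl, fun μ hμ => not_le.2 hμ⟩

end Pool.Agent.R593.Rnd
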